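import Pool.Agent.Few65.Main

set_option autoImplicit false

namespace Pool.Agent.Results.MP_dd4dfb_co.DenseInGroup

/-- Let `v 1, …, v m` be plane vectors that are linearly independent over the integers and let
`δ > 0`. There are `c, η > 0` such that every set `P` of `n ≥ δ (2N+1)^m` points of a translate of
the box `{∑ aᵢ vᵢ : |aᵢ| ≤ N}` with at most `η n` distinct distances has a line with at least
`c √n` of its points. -/
theorem result (m : ℕ) (v : Fin m → EuclideanSpace ℝ (Fin 2)) (hv : LinearIndependent ℤ v)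
    (δ : ℝ) (hδ : 0 < δ) :
    ∃ c η : ℝ, 0 < c ∧ 0 < η ∧
      ∀ (N : ℕ) (w : EuclideanSpace ℝ (Fin 2)) (P : Finset (EuclideanSpace ℝ (Fin 2))),
        (∀ p ∈ P, ∃ a : Fin m → ℤ, (∀ i, |a i| ≤ (N : ℤ)) ∧ p = w + ∑ i, a i • v i) →
        δ * (2 * (N : ℝ) + 1) ^ m ≤ (P.card : ℝ) →
        ((P.offDiag.image (fun p => dist p.1 p.2)).card : ℝ) ≤ η * (P.card : ℝ) →
          ∃ a b : EuclideanSpace ℝ (Fin 2), a ≠ b ∧
            c * Real.sqrt (P.card : ℝ)
              ≤ (((P : Set (EuclideanSpace ℝ (Fin 2))) ∩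
                  (affineSpan ℝ {a, b} : Set (EuclideanSpace ℝ (Fin 2)))).ncard : ℝ) :=
  Pool.Agent.Few65.main m v hv δ hδ

end Pool.Agent.Results.MP_dd4dfb_co.DenseInGroup
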