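import Pool.Agent.Few65U.Final2

set_option autoImplicit false

namespace Pool.Agent.Results.MP_dd4dfb_co.UniformDichotomy

/-- For every `m` there is `c > 0` such that the following holds for all plane vectors
`v 1, …, v m` that are linearly independent over the integers: unless the rational span of the
`v i` (read as complex numbers) is `l * E` for a nonzero complex number `l` and a subfield `E` of
the complex numbers which is closed under complex conjugation and contains a non-real number, every
finite set `P` of at least two points of a translate of the box `{∑ aᵢ vᵢ : |aᵢ| ≤ N}` spans at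
least `c * |P - P|^2 / (2N+1)^m` distinct distances, where `P - P` is the set of all differences
(so `|P - P| ≥ |P|`). The constant `c` depends on `m` only. -/
theorem result (m : ℕ) :
    ∃ c : ℝ, 0 < c ∧ ∀ v : Fin m → EuclideanSpace ℝ (Fin 2), LinearIndependent ℤ v →
      (¬ ∃ (l : ℂ) (E : Subfield ℂ), l ≠ 0 ∧ (∀ z ∈ E, (starRingEnd ℂ) z ∈ E) ∧
        (∃ z ∈ E, z.im ≠ 0) ∧
        ∀ z : ℂ, z ∈ E ↔ ∃ q : Fin m → ℚ, l * z = ∑ i, (q i : ℂ) * (⟨v i 0, v i 1⟩ : ℂ)) →
      ∀ (N : ℕ) (w : EuclideanSpace ℝ (Fin 2)) (P : Finset (EuclideanSpace ℝ (Fin 2))),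
        (∀ p ∈ P, ∃ a : Fin m → ℤ, (∀ i, |a i| ≤ (N : ℤ)) ∧ p = w + ∑ i, a i • v i) →
        2 ≤ P.card →
        c * (((P ×ˢ P).image (fun p => p.1 - p.2)).card : ℝ) ^ 2 ≤
          (2 * (N : ℝ) + 1) ^ m * ((P.offDiag.image (fun p => dist p.1 p.2)).card : ℝ) :=
  Pool.Agent.Few65U.mainU2 m

end Pool.Agent.Results.MP_dd4dfb_co.UniformDichotomy
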